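import Mathlib

/-!
# Independent primes
-/

set_option autoImplicit false

namespace Pool.Agent.N53.CL

theorem exists_primes (n N₀ B : ℕ) (hn : 1 ≤ n) :
    ∃ p q : Fin N₀ → ℕ, (∀ i, (p i).Prime ∧ B < p i) ∧ (∀ i, (q i).Prime ∧ B < q i) ∧
      (∀ i j, q i ≠ p j) ∧ ∀ i, ∀ ℓ : ℕ, ℓ.Prime → ℓ ∣ n →
        ∀ (e : Fin N₀ → ℕ) (y : ZMod (p i)),
        (∏ j, (q j : ZMod (p i)) ^ e j = y ^ ℓ ∨ ∏ j, (q j : ZMod (p i)) ^ e j = - y ^ ℓ) →
        ℓ ∣ e i := by
  classical
  have : NeZero (2 * n) := ⟨by omega⟩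
  have hinf : {p : ℕ | p.Prime ∧ (p : ZMod (2 * n)) = 1}.Infinite := by
    rw [Set.infinite_iff_exists_gt]
    intro b
    obtain ⟨p, h1, h2, h3⟩ := Nat.forall_exists_prime_gt_and_eq_mod (q := 2 * n) (a := 1)
      isUnit_one b
    exact ⟨p, ⟨h2, h3⟩, h1⟩
  have hinf' := hinf.diff (Set.finite_Iic B)
  set f := Set.Infinite.natEmbedding _ hinf' with hf
  set p : Fin N₀ → ℕ := fun i => (f i : ℕ) with hp
  have hpp : ∀ i, (p i).Prime := fun i => (f i).2.1.1
  have hp1 : ∀ i, ((p i : ℕ) : ZMod (2 * n)) = 1 := fun i => (f i).2.1.2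
  have hpB : ∀ i, B < p i := fun i => not_le.1 (f i).2.2
  have hpinj : Function.Injective p := by
    intro i j hij
    have h1 : f (i : ℕ) = f (j : ℕ) := Subtype.ext hij
    exact Fin.ext (f.injective h1)
  have hdvd : ∀ i, 2 * n ∣ p i - 1 := by
    intro i
    have h1 : ((p i - 1 : ℕ) : ZMod (2 * n)) = 0 := by
      rw [Nat.cast_sub (hpp i).one_lt.le, hp1, Nat.cast_one, sub_self]
    exact (ZMod.natCast_eq_zero_iff _ _).1 h1
  have hfact : ∀ i, Fact (p i).Prime := fun i => ⟨hpp i⟩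
  have hcop : Pairwise (Function.onFun Nat.Coprime p) := by
    intro i j hij
    exact (Nat.coprime_primes (hpp i) (hpp j)).2 fun h => hij (hpinj h)
  have hg : ∀ i, ∃ g : (ZMod (p i))ˣ, ∀ x, x ∈ Subgroup.zpowers g := by
    intro i
    exact IsCyclic.exists_generator
  choose g hg using hg
  have hord : ∀ i, orderOf (g i) = p i - 1 := by
    intro i
    rw [orderOf_eq_card_of_forall_mem_zpowers (hg i), Nat.card_eq_fintype_card,
      ZMod.card_units]
  set E := ZMod.prodEquivPi p hcop with hE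
  have : NeZero (∏ i, p i) := ⟨Finset.prod_ne_zero_iff.2 fun i _ => (hpp i).ne_zero⟩
  have hq : ∀ i, ∃ q : ℕ, q.Prime ∧ B + ∏ i, p i < q ∧
      ∀ j, (q : ZMod (p j)) = Function.update (fun j => (1 : ZMod (p j))) i (g i : ZMod (p i)) j := by
    intro i
    have hu : IsUnit (E.symm (Function.update (fun j => (1 : ZMod (p j))) i (g i : ZMod (p i)))) := by
      have h1 : IsUnit (Function.update (fun j => (1 : ZMod (p j))) i (g i : ZMod (p i))) := by
        rw [Pi.isUnit_iff]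
        intro j
        by_cases h : j = i
        · subst h
          rw [Function.update_self]
          exact (g j).isUnit
        · rw [Function.update_of_ne h]
          exact isUnit_one
      exact h1.map E.symm
    obtain ⟨q, h1, h2, h3⟩ := Nat.forall_exists_prime_gt_and_eq_mod hu (B + ∏ i, p i)
    refine ⟨q, h2, h1, fun j => ?_⟩
    have h4 := congrArg E h3
    rw [RingEquiv.apply_symm_apply, map_natCast] at h4
    have h5 := congrFun h4 j
    rw [← h5]
    rfl
  choose q hqp hqB hqr using hq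
  refine ⟨p, q, fun i => ⟨hpp i, hpB i⟩, fun i => ⟨hqp i, by have := hqB i; omega⟩, ?_, ?_⟩
  · intro i j h
    have h1 : p j ≤ ∏ i, p i := Nat.le_of_dvd (Nat.pos_of_ne_zero (NeZero.ne _))
      (Finset.dvd_prod_of_mem _ (Finset.mem_univ j))
    have := hqB i
    omega
  · intro i ℓ hℓ hℓn e y hy
    have h1 : ∏ j, (q j : ZMod (p i)) ^ e j = (g i : ZMod (p i)) ^ e i := by
      rw [Finset.prod_eq_single i]
      · rw [hqr i i, Function.update_self]
      · intro j _ hj
        rw [hqr j i, Function.update_of_ne hj.symm, one_pow]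
      · intro h
        exact absurd (Finset.mem_univ i) h
    rw [h1] at hy
    have h2 : ((g i : ZMod (p i)) ^ e i) ^ 2 = (y ^ ℓ) ^ 2 := by
      rcases hy with h | h
      · rw [h]
      · rw [h, neg_sq]
    have hy0 : y ≠ 0 := by
      rintro rfl
      rw [zero_pow hℓ.ne_zero, zero_pow two_ne_zero] at h2
      exact pow_ne_zero _ (pow_ne_zero _ (g i).ne_zero) h2
    obtain ⟨k, hk⟩ := hg i (Units.mk0 y hy0)
    have h3 : (g i) ^ ((2 : ℤ) * e i) = (g i) ^ (2 * (ℓ * k)) := by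
      have h4 : ((g i) ^ e i) ^ 2 = ((Units.mk0 y hy0) ^ ℓ) ^ 2 := by
        apply Units.ext
        push_cast
        exact h2
      rw [← hk] at h4
      have h5 : (g i) ^ ((2 : ℤ) * e i) = ((g i) ^ e i) ^ 2 := by
        rw [mul_comm, zpow_mul, zpow_natCast]
        norm_cast
      rw [h5, h4]
      simp only
      rw [← zpow_natCast, ← zpow_natCast, ← zpow_mul, ← zpow_mul]
      congr 1
      push_cast
      ring
    have h6 : ((orderOf (g i) : ℕ) : ℤ) ∣ 2 * e i - 2 * (ℓ * k) := by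
      rw [orderOf_dvd_iff_zpow_eq_one, zpow_sub, h3, mul_inv_cancel]
    have h7 : (2 * ℓ : ℤ) ∣ 2 * e i - 2 * (ℓ * k) := by
      refine Dvd.dvd.trans ?_ h6
      rw [hord]
      have h8 : 2 * ℓ ∣ p i - 1 := (Nat.mul_dvd_mul_left 2 hℓn).trans (hdvd i)
      exact_mod_cast h8
    have h9 : (ℓ : ℤ) ∣ e i - ℓ * k := by
      have h10 : (2 : ℤ) * e i - 2 * (ℓ * k) = 2 * (e i - ℓ * k) := by ring
      rw [h10] at h7
      exact (mul_dvd_mul_iff_left (by norm_num : (2 : ℤ) ≠ 0)).1 h7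
    have h11 : (ℓ : ℤ) ∣ e i := by
      have := h9.add (Dvd.intro k rfl : (ℓ : ℤ) ∣ ℓ * k)
      simpa using this
    exact_mod_cast h11

end Pool.Agent.N53.CL
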