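import Pool.Agent.N53.CL.Fields
import Pool.Agent.N53.CL.Gen

/-!
# The fields with large `m`-rank and arbitrarily large `n`-rank
-/

set_option autoImplicit false

namespace Pool.Agent.N53.CL

open NumberField Pool.Agent.W289.CG nonZeroDivisors

/-- the ideal `P` with `P ^ n = (q)` as a fractional ideal -/
theorem exists_frac {K : Type} [Field K] [NumberField K] (n q : ℕ) (hn : n ≠ 0) (hq : q ≠ 0)
    (P : Ideal (𝓞 K)) (hP : P ^ n = Ideal.span {(q : 𝓞 K)}) (x : Kˣ) (hx : (x : K) = (q : K)) :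
    ∃ I : (FractionalIdeal (𝓞 K)⁰ K)ˣ, I ^ n = toPrincipalIdeal (𝓞 K) K x := by
  have hP0 : P ≠ ⊥ := by
    rintro rfl
    rw [← Ideal.zero_eq_bot, zero_pow hn, Ideal.zero_eq_bot, eq_comm,
      Ideal.span_singleton_eq_bot] at hP
    exact hq (by exact_mod_cast hP)
  have hP1 : (P : FractionalIdeal (𝓞 K)⁰ K) ≠ 0 := FractionalIdeal.coeIdeal_ne_zero.2 hP0
  refine ⟨Units.mk0 _ hP1, ?_⟩
  apply Units.ext
  rw [Units.val_pow_eq_pow_val, Units.val_mk0, coe_toPrincipalIdeal, hx,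
    ← FractionalIdeal.coeIdeal_pow, hP, FractionalIdeal.coeIdeal_span_singleton, map_natCast]

theorem of_both {n k : ℕ} (hn : 2 ≤ n) (hk : 1 ≤ k) (D : Dat n k) (r₁ : ℕ) (v₁ v₂ : ℝ)
    (h₁ : 0 < v₁) (h₁₂ : v₁ < v₂) (hcount : ∀ v, v₁ < v → v < v₂ →
      {X : ℝ | ∏ i, (X - (D.a i : ℝ)) = - v}.ncard = r₁) (m N R : ℕ) (hm : 2 ≤ m) (S T : Finset ℕ)
    (hS : ∀ p ∈ S, p.Prime ∧ ¬ (p : ℤ) ∣ D.c * |D.bad|)
    (hT : ∀ q ∈ T, q.Prime ∧ ¬ (q : ℤ) ∣ D.c * |D.bad|) (hST : Disjoint S T)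
    (hTm : ∀ q ∈ T, ¬ q ∣ m) :
    ∃ (K : Type) (_ : Field K) (_ : NumberField K), Module.finrank ℚ K = n ∧
      InfinitePlace.nrRealPlaces K = r₁ ∧ (N : ℤ) < |discr K| ∧
      (∀ p ∈ S, ∃ P : Fin n → Ideal (𝓞 K), Function.Injective P ∧ (∀ i, (P i).IsPrime) ∧
        ∏ i, P i = Ideal.span {(p : 𝓞 K)}) ∧
      (∀ q ∈ T, ∃ P : Ideal (𝓞 K), P.IsPrime ∧ P ^ n = Ideal.span {(q : 𝓞 K)}) ∧
      (∀ R, R + Units.rank K ≤ n + k - 1 →
        ∃ f : Multiplicative (Fin R → ZMod m) →* ClassGroup (𝓞 K), Function.Injective f) ∧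
      ∃ f : Multiplicative (Fin R → ZMod n) →* ClassGroup (𝓞 K), Function.Injective f := by
  classical
  set Z : ℤ := D.c * |D.bad| with hZ
  have hZ0 : 0 < Z := mul_pos D.hc (abs_pos.2 (bad_ne D))
  have hd : ∀ q : ℕ, Z.natAbs < q → ¬ (q : ℤ) ∣ Z := fun q hq => not_dvd_of_lt hZ0.ne' hq
  set B : ℕ := Z.natAbs + m + n + (S ∪ T).sup id with hB
  have hBS : ∀ x ∈ S ∪ T, x ≤ B := by
    intro x hx
    have : x ≤ (S ∪ T).sup id := Finset.le_sup (f := id) hx
    omega
  obtain ⟨p, q, hp, hq, hqp, hkey⟩ := exists_primes n (R + n) B (by omega)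
  have : NeZero (4 * n) := ⟨by omega⟩
  obtain ⟨p₀, hp₀B, hp₀, hp₀n⟩ := Nat.forall_exists_prime_gt_and_eq_mod (q := 4 * n) (a := -1)
    (isUnit_one.neg) (B + ∏ i, q i)
  have hqle : ∀ i, q i ≤ ∏ i, q i := fun i => Nat.le_of_dvd
    (Finset.prod_pos fun j _ => (hq j).1.pos) (Finset.dvd_prod_of_mem _ (Finset.mem_univ i))
  have hp₀d : 4 * n ∣ p₀ + 1 := by
    have h1 : ((p₀ + 1 : ℕ) : ZMod (4 * n)) = 0 := by
      push_cast
      rw [hp₀n]
      ring
    exact (ZMod.natCast_eq_zero_iff _ _).1 h1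
  set S' : Finset ℕ := S ∪ insert p₀ (Finset.univ.image p) with hS'def
  set T' : Finset ℕ := T ∪ Finset.univ.image q with hT'def
  have hS' : ∀ p ∈ S', p.Prime ∧ ¬ (p : ℤ) ∣ Z := by
    intro x hx
    simp only [hS'def, Finset.mem_union, Finset.mem_insert, Finset.mem_image, Finset.mem_univ,
      true_and] at hx
    rcases hx with h | rfl | ⟨i, rfl⟩
    · exact hS x h
    · exact ⟨hp₀, hd _ (by omega)⟩
    · exact ⟨(hp i).1, hd _ (by have := (hp i).2; omega)⟩
  have hT' : ∀ p ∈ T', p.Prime ∧ ¬ (p : ℤ) ∣ Z := by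
    intro x hx
    simp only [hT'def, Finset.mem_union, Finset.mem_image, Finset.mem_univ, true_and] at hx
    rcases hx with h | ⟨i, rfl⟩
    · exact hT x h
    · exact ⟨(hq i).1, hd _ (by have := (hq i).2; omega)⟩
  have hTm' : ∀ q ∈ T', ¬ q ∣ m := by
    intro x hx
    simp only [hT'def, Finset.mem_union, Finset.mem_image, Finset.mem_univ, true_and] at hx
    rcases hx with h | ⟨i, rfl⟩
    · exact hTm x h
    · intro h
      have := Nat.le_of_dvd (by omega) h
      have := (hq i).2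
      omega
  have hST' : Disjoint S' T' := by
    rw [Finset.disjoint_left]
    intro x hx hx'
    simp only [hS'def, Finset.mem_union, Finset.mem_insert, Finset.mem_image, Finset.mem_univ,
      true_and] at hx
    simp only [hT'def, Finset.mem_union, Finset.mem_image, Finset.mem_univ, true_and] at hx'
    rcases hx' with h' | ⟨j, hj⟩
    · have h3 := hBS x (Finset.mem_union_right _ h')
      rcases hx with h | h | ⟨i, h⟩
      · exact Finset.disjoint_left.1 hST h h'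
      · omega
      · have := (hp i).2
        omega
    · rcases hx with h | h | ⟨i, h⟩
      · have h3 := hBS x (Finset.mem_union_left _ h)
        have := (hq j).2
        omega
      · have := hqle j
        omega
      · exact hqp j i (by rw [hj, h])
  obtain ⟨K, hK1, hK2, hfr, hreal, hdisc, hspl, hram, hcl⟩ :=
    of_data' hn hk D r₁ v₁ v₂ h₁ h₁₂ hcount m N hm S' T' hS' hT' hST' hTm'
  refine ⟨K, hK1, hK2, hfr, hreal, hdisc,
    fun p hp => (hspl p (Finset.mem_union_left _ hp)).1,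
    fun q hq => hram q (Finset.mem_union_left _ hq), hcl, ?_⟩
  have hq0 : ∀ i, ((q i : ℕ) : K) ≠ 0 := fun i => by exact_mod_cast (hq i).1.ne_zero
  have h8 := InfinitePlace.card_add_two_mul_card_eq_rank K
  have h7 := rank_eq K
  refine Pool.Agent.W930.CG.cls Pool.Agent.W240.CG.grp Pool.Agent.W125.CG.uni K (R + n) n R hn
    (by omega) (fun i => Units.mk0 _ (hq0 i)) ?_ ?_ ?_
  · intro i
    obtain ⟨P, -, hP⟩ := hram (q i) (Finset.mem_union_right _
      (Finset.mem_image_of_mem _ (Finset.mem_univ i)))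
    exact exists_frac n (q i) (by omega) (hq i).1.ne_zero P hP _ rfl
  · intro ℓ hℓ hℓn e y hy i
    obtain ⟨-, hfact, ⟨φ⟩⟩ := hspl (p i) (Finset.mem_union_right _ (Finset.mem_insert_of_mem
      (Finset.mem_image_of_mem _ (Finset.mem_univ i))))
    have hℓ0 : (ℓ : ℤ) ≠ 0 := by exact_mod_cast hℓ.ne_zero
    set e' : Fin (R + n) → ℕ := fun i => (e i % ℓ).toNat with he'
    have hmod : ∀ i, ((e' i : ℕ) : ℤ) = e i % ℓ := fun i => by
      rw [he']
      exact Int.toNat_of_nonneg (Int.emod_nonneg _ hℓ0)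
    have hee : ∀ i, (ℓ : ℤ) ∣ e i - (e' i : ℤ) := fun i => by
      rw [hmod]
      exact Int.dvd_self_sub_emod
    have hqpi : ∀ j, ((q j : ℕ) : ZMod (p i)) ≠ 0 := by
      intro j h
      rw [ZMod.natCast_eq_zero_iff] at h
      exact hqp j i ((Nat.prime_dvd_prime_iff_eq (hp i).1 (hq j).1).1 h).symm
    obtain ⟨y', hy'⟩ := Pool.Agent.W349.CG.red K (p i) ℓ (R + n) 0 (fun j => -(q j : ℤ)) φ 0 0 hℓ
      (by simp) (by simp)
      (by
        intro j h
        apply hqpi j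
        push_cast at h
        exact neg_eq_zero.1 h.symm) e e' (y : K) hee
      (by
        have hy2 : ∏ j, ((q j : ℕ) : K) ^ e j = (y : K) ^ ℓ ∨
            ∏ j, ((q j : ℕ) : K) ^ e j = - (y : K) ^ ℓ := by
          rcases hy with h | h
          · left
            have := congrArg (Units.val) h
            simpa using this
          · right
            have := congrArg (Units.val) h
            simpa using this
        simpa using hy2)
    have h9 := hkey i ℓ hℓ hℓn e' y' (by simpa using hy')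
    have h10 : (ℓ : ℤ) ∣ (e' i : ℤ) := by exact_mod_cast h9
    have := (hee i).add h10
    simpa using this
  · intro ℓ hℓ hℓn
    obtain ⟨-, hfact, ⟨φ⟩⟩ := hspl p₀ (Finset.mem_union_right _ (Finset.mem_insert_self _ _))
    have hle : ℓ ≤ n := Nat.le_of_dvd (by omega) hℓn
    have hp3 : 3 < p₀ := by
      have := Nat.le_of_dvd (by omega) hp₀d
      omega
    have hq1 : p₀ - 1 + 2 = p₀ + 1 := by omega
    refine ⟨fun hℓ2 => ?_, fun hℓ2 => ?_⟩
    · rintro ⟨ζ, hζ⟩
      have h1 := Pool.Agent.W349.CG.mu p₀ ℓ (fun h => by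
        have := Nat.le_of_dvd hℓ.pos h
        omega) ⟨φ ζ, hζ.map_of_injective φ.injective⟩
      have h2 : ℓ ∣ p₀ + 1 := (hℓn.trans (Dvd.intro_left _ rfl)).trans hp₀d
      rw [← hq1] at h2
      have h3 : ℓ ∣ 2 := (Nat.dvd_add_right h1).1 h2
      exact hℓ2 ((Nat.prime_dvd_prime_iff_eq hℓ Nat.prime_two).1 h3)
    · rintro ⟨ζ, hζ⟩
      have h1 := Pool.Agent.W349.CG.mu p₀ 4 (fun h => by
        have h4 := Nat.le_of_dvd (by norm_num) h
        have h5 : p₀ = 4 := by omega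
        rw [h5] at hp₀
        exact absurd hp₀ (by norm_num)) ⟨φ ζ, hζ.map_of_injective φ.injective⟩
      have h2 : 4 ∣ p₀ + 1 := (Dvd.intro _ rfl).trans hp₀d
      rw [← hq1] at h2
      have h3 : 4 ∣ 2 := (Nat.dvd_add_right h1).1 h2
      norm_num at h3

end Pool.Agent.N53.CL
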