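import Pool.Agent.W289.CG.Core3

/-!
# Congruence conditions with ramified primes, coprime to a given modulus
-/

set_option autoImplicit false

namespace Pool.Agent.N53.CL

open Pool.Agent.W289.CG Polynomial NumberField nonZeroDivisors

/-- finitely many tests can be satisfied simultaneously, with a modulus coprime to `W` -/
theorem crt_tests' {ι : Type} (P : ι → ℕ → ℤ → ℤ → Prop)
    (hP : ∀ (τ : ι) (q : ℕ) (s t s' t' : ℤ), (q : ℤ) ∣ s' - s → (q : ℤ) ∣ t' - t → P τ q s t → P τ q s' t')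
    (T : List ι)
    (hT : ∀ τ ∈ T, ∀ Q : ℕ, ∃ q : ℕ, q.Prime ∧ Q < q ∧ ∃ s t : ℤ, ¬ (q : ℤ) ∣ s ∧ P τ q s t)
    (M₀ s₀ t₀ W : ℤ) (hM₀ : 0 < M₀) (hs₀ : IsCoprime s₀ M₀) (hW : 0 < W) (hMW : IsCoprime M₀ W) :
    ∃ M s t : ℤ, 0 < M ∧ M₀ ∣ M ∧ IsCoprime M W ∧ IsCoprime s M ∧ M₀ ∣ s - s₀ ∧ M₀ ∣ t - t₀ ∧
      ∀ τ ∈ T, ∃ q : ℕ, q.Prime ∧ (q : ℤ) ∣ M ∧ P τ q s t := by
  induction T with
  | nil => exact ⟨M₀, s₀, t₀, hM₀, dvd_rfl, hMW, hs₀, by simp, by simp, by simp⟩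
  | cons τ T ih =>
    obtain ⟨M, s, t, hM, hMM, hMW', hsM, hs, ht, hall⟩ :=
      ih (fun τ' h => hT τ' (List.mem_cons_of_mem _ h))
    obtain ⟨q, hq, hMq, s', t', hs', hPq⟩ := hT τ (by simp) (M.toNat + W.toNat)
    have hqM : ¬ (q : ℤ) ∣ M := by
      intro h
      have := Int.le_of_dvd hM h
      omega
    have hqW : ¬ (q : ℤ) ∣ W := by
      intro h
      have := Int.le_of_dvd hW h
      omega
    obtain ⟨s₁, t₁, h1, h2, h3, h4, h5⟩ := crt2 (t := t) (t' := t') (coprime_of_prime hq hqM) hsM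
      (coprime_of_prime hq hs')
    refine ⟨M * q, s₁, t₁, mul_pos hM (by exact_mod_cast hq.pos), hMM.mul_right _,
      IsCoprime.mul_left hMW' (coprime_of_prime hq hqW).symm, h5, ?_, ?_, ?_⟩
    · have := (hMM.trans h1).add hs
      simpa using this
    · have := (hMM.trans h2).add ht
      simpa using this
    · intro τ' hτ'
      rcases List.mem_cons.1 hτ' with rfl | h
      · exact ⟨q, hq, Dvd.intro_left _ rfl, hP _ _ _ _ _ _ h3 h4 hPq⟩
      · obtain ⟨q', hq', hqM', hP'⟩ := hall τ' h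
        exact ⟨q', hq', hqM'.mul_right _, hP _ _ _ _ _ _ (hqM'.trans h1) (hqM'.trans h2) hP'⟩

/-- the conditions at the primes which will be totally ramified -/
theorem crt_ram (T : Finset ℕ) (M₀ : ℤ) (hM₀ : 0 < M₀)
    (hT : ∀ q ∈ T, q.Prime ∧ ¬ (q : ℤ) ∣ M₀) :
    ∃ M s t : ℤ, 0 < M ∧ M₀ ∣ M ∧ IsCoprime s M ∧ M₀ ∣ s - 1 ∧ M₀ ∣ t - 1 ∧
      (∀ q ∈ T, (q : ℤ) ^ 2 ∣ M ∧ (q : ℤ) ^ 2 ∣ s - 1 ∧ (q : ℤ) ^ 2 ∣ t - (1 + q)) ∧
      ∀ p : ℕ, p.Prime → (p : ℤ) ∣ M → (p : ℤ) ∣ M₀ ∨ p ∈ T := by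
  classical
  induction T using Finset.induction_on with
  | empty =>
    exact ⟨M₀, 1, 1, hM₀, dvd_rfl, isCoprime_one_left, by simp, by simp, by simp,
      fun p _ h => Or.inl h⟩
  | insert q T hqT ih =>
    obtain ⟨M, s, t, hM, hMM, hcop, hs, ht, hall, hpr⟩ :=
      ih (fun q' h => hT q' (Finset.mem_insert_of_mem h))
    obtain ⟨hq, hqM₀⟩ := hT q (Finset.mem_insert_self _ _)
    have hqM : ¬ (q : ℤ) ∣ M := by
      intro h
      rcases hpr q hq h with h | h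
      · exact hqM₀ h
      · exact hqT h
    obtain ⟨s₁, t₁, h1, h2, h3, h4, h5⟩ := crt2 (M := M) (M' := (q : ℤ) ^ 2) (s := s) (t := t)
      (s' := 1) (t' := 1 + q) ((coprime_of_prime hq hqM).pow_right) hcop isCoprime_one_left
    have hq0 : (0 : ℤ) < q := by exact_mod_cast hq.pos
    refine ⟨M * (q : ℤ) ^ 2, s₁, t₁, by positivity, hMM.mul_right _, h5, ?_, ?_, ?_, ?_⟩
    · have := (hMM.trans h1).add hs
      simpa using this
    · have := (hMM.trans h2).add ht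
      simpa using this
    · intro q' hq'
      rcases Finset.mem_insert.1 hq' with rfl | h
      · exact ⟨Dvd.intro_left _ rfl, h3, h4⟩
      · obtain ⟨e1, e2, e3⟩ := hall q' h
        refine ⟨e1.mul_right _, ?_, ?_⟩
        · have := (e1.trans h1).add e2
          simpa using this
        · have := (e1.trans h2).add e3
          simpa using this
    · intro p hp hpM
      have hpp : Prime (p : ℤ) := Nat.prime_iff_prime_int.1 hp
      rcases hpp.dvd_or_dvd hpM with h | h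
      · rcases hpr p hp h with h | h
        · exact Or.inl h
        · exact Or.inr (Finset.mem_insert_of_mem h)
      · right
        have h6 := hpp.dvd_of_dvd_pow h
        have h7 : p ∣ q := by exact_mod_cast h6
        rw [(Nat.prime_dvd_prime_iff_eq hp hq).1 h7]
        exact Finset.mem_insert_self _ _

theorem coprime_prod (S : Finset ℕ) (M : ℤ) (hS : ∀ p ∈ S, p.Prime ∧ ¬ (p : ℤ) ∣ M) :
    IsCoprime M (∏ p ∈ S, (p : ℤ)) :=
  IsCoprime.prod_right fun p hp => coprime_of_prime (hS p hp).1 (hS p hp).2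

theorem exists_good' (hW : TaskWeil) (hR : TaskRoot) {n k : ℕ} (D : Dat n k) (m N : ℕ)
    (hn : 1 ≤ n) (hk : 1 ≤ k) (hm : 2 ≤ m) (S T : Finset ℕ)
    (hS : ∀ p ∈ S, p.Prime ∧ ¬ (p : ℤ) ∣ D.c * |D.bad|)
    (hT : ∀ q ∈ T, q.Prime ∧ ¬ (q : ℤ) ∣ D.c * |D.bad|) (hST : Disjoint S T) :
    ∃ (q₀ q₁ : ℕ) (M s₀ t₀ : ℤ), 0 < M ∧ IsCoprime s₀ M ∧ IsCoprime M (∏ p ∈ S, (p : ℤ)) ∧
      ∀ s t : ℤ, M ∣ s - s₀ → M ∣ t - t₀ → Good D m N q₀ q₁ s t ∧
        ∀ q ∈ T, (q : ℤ) ∣ s - 1 ∧ (q : ℤ) ^ 2 ∣ t - s - q := by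
  classical
  set Z : ℤ := D.c * |D.bad| with hZ
  have hZ0 : 0 < Z := mul_pos D.hc (abs_pos.2 (bad_ne D))
  obtain ⟨MT, sT, tT, hMT, hZM, hcT, hsT, htT, hTT, hprT⟩ := crt_ram T Z hZ0 hT
  set W : ℤ := ∏ p ∈ S, (p : ℤ) with hWdef
  have hWpos : 0 < W := Finset.prod_pos fun p hp => by exact_mod_cast (hS p hp).1.pos
  have hMTW : IsCoprime MT W := by
    refine coprime_prod S MT fun p hp => ⟨(hS p hp).1, fun h => ?_⟩
    rcases hprT p (hS p hp).1 h with h | h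
    · exact (hS p hp).2 h
    · exact Finset.disjoint_left.1 hST hp h
  obtain ⟨q₀, hq₀N, hq₀⟩ :=
    Nat.exists_infinite_primes (N + Z.natAbs + m + 1 + MT.natAbs + W.natAbs)
  have : NeZero (4 * m) := ⟨by omega⟩
  obtain ⟨q₁, hq₁N, hq₁, hq₁m⟩ := Nat.forall_exists_prime_gt_and_eq_mod (q := 4 * m) (a := -1)
    (isUnit_one.neg) (q₀ + Z.natAbs + m + 4 + MT.natAbs + W.natAbs)
  have hd : ∀ q : ℕ, Z.natAbs < q → ¬ (q : ℤ) ∣ Z := fun q hq => not_dvd_of_lt hZ0.ne' hq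
  have hdM : ∀ q : ℕ, MT.natAbs < q → ¬ (q : ℤ) ∣ MT := fun q hq => not_dvd_of_lt hMT.ne' hq
  have hdW : ∀ q : ℕ, W.natAbs < q → ¬ (q : ℤ) ∣ W := fun q hq => not_dvd_of_lt hWpos.ne' hq
  have hc : ∀ q : ℕ, Z.natAbs < q → ¬ (q : ℤ) ∣ D.c := fun q hq h =>
    hd q hq (Dvd.dvd.mul_right h _)
  have hbad : ∀ q : ℕ, Z.natAbs < q → ¬ (q : ℤ) ∣ D.bad := fun q hq h =>
    hd q hq (Dvd.dvd.mul_left ((dvd_abs _ _).2 h) _)
  -- first two moduli
  obtain ⟨s₁, t₁, a1, a2, a3, a4, a5⟩ := crt2 (M := MT) (M' := (q₀ : ℤ) ^ 2) (s := sT) (t := tT)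
    (s' := 1) (t' := 1 + q₀)
    ((coprime_of_prime hq₀ (hdM q₀ (by have := hMT; omega))).pow_right)
    hcT isCoprime_one_left
  have hq01 : ¬ (q₁ : ℤ) ∣ MT * (q₀ : ℤ) ^ 2 := by
    have hp : Prime (q₁ : ℤ) := Nat.prime_iff_prime_int.1 hq₁
    intro h
    rcases hp.dvd_or_dvd h with h | h
    · exact hdM q₁ (by omega) h
    · have h1 := hp.dvd_of_dvd_pow h
      have h2 : q₁ ∣ q₀ := by exact_mod_cast h1
      have := Nat.le_of_dvd hq₀.pos h2
      omega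
  obtain ⟨s₂, t₂, b1, b2, b3, b4, b5⟩ := crt2 (M := MT * (q₀ : ℤ) ^ 2) (M' := (q₁ : ℤ)) (s := s₁)
    (t := t₁) (s' := 1) (t' := 0) (coprime_of_prime hq₁ hq01) a5 isCoprime_one_left
  -- the tests
  set TT : List (ℕ × (Fin n ⊕ Fin k → ℕ)) :=
    ((m.primeFactors ×ˢ Fintype.piFinset (fun _ : Fin n ⊕ Fin k => Finset.range m)).filter
      (fun τ => ∃ p, ¬ τ.1 ∣ τ.2 p)).toList with hTT'
  have hTm : ∀ τ, τ ∈ TT ↔ (τ.1 ∈ m.primeFactors ∧ ∀ p, τ.2 p < m) ∧ ∃ p, ¬ τ.1 ∣ τ.2 p := by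
    intro τ
    simp [hTT']
  obtain ⟨M, s₀, t₀, hM, hMM, hMW, hcop, hs, ht, hall⟩ := crt_tests' (PT D m) PT.congr TT
    (by
      intro τ hτ Q
      rw [hTm] at hτ
      exact exists_test hW hR D m hn hk hm τ (Nat.prime_of_mem_primeFactors hτ.1.1)
        (Nat.dvd_of_mem_primeFactors hτ.1.1) hτ.2 Q)
    (MT * (q₀ : ℤ) ^ 2 * q₁) s₂ t₂ W
    (by
      have h1 : (0 : ℤ) < q₀ := by exact_mod_cast hq₀.pos
      have h2 : (0 : ℤ) < q₁ := by exact_mod_cast hq₁.pos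
      positivity) b5 hWpos
    (IsCoprime.mul_left (IsCoprime.mul_left hMTW
      (coprime_of_prime hq₀ (hdW q₀ (by omega))).symm.pow_left)
      (coprime_of_prime hq₁ (hdW q₁ (by omega))).symm)
  refine ⟨q₀, q₁, M, s₀, t₀, hM, hcop, hMW, fun s t hs' ht' => ?_⟩
  -- congruences of `s` and `t`
  have e1 : MT * (q₀ : ℤ) ^ 2 * q₁ ∣ s - s₂ := by
    have := (hMM.trans hs').add hs
    simpa using this
  have e2 : MT * (q₀ : ℤ) ^ 2 * q₁ ∣ t - t₂ := by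
    have := (hMM.trans ht').add ht
    simpa using this
  have f1 : MT * (q₀ : ℤ) ^ 2 ∣ s - s₁ := by
    have := ((Dvd.intro _ rfl).trans e1).add b1
    simpa using this
  have f2 : MT * (q₀ : ℤ) ^ 2 ∣ t - t₁ := by
    have := ((Dvd.intro _ rfl).trans e2).add b2
    simpa using this
  have g1' : MT ∣ s - sT := by
    have := ((Dvd.intro _ rfl).trans f1).add a1
    simpa using this
  have g2' : MT ∣ t - tT := by
    have := ((Dvd.intro _ rfl).trans f2).add a2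
    simpa using this
  have g1 : Z ∣ s - 1 := by
    have := (hZM.trans g1').add hsT
    simpa using this
  have g2 : Z ∣ t - 1 := by
    have := (hZM.trans g2').add htT
    simpa using this
  have g3 : (q₀ : ℤ) ^ 2 ∣ s - 1 := by
    have := ((Dvd.intro_left _ rfl).trans f1).add a3
    simpa using this
  have g4 : (q₀ : ℤ) ^ 2 ∣ t - (1 + q₀) := by
    have := ((Dvd.intro_left _ rfl).trans f2).add a4
    simpa using this
  have g5 : (q₁ : ℤ) ∣ s - 1 := by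
    have := ((Dvd.intro_left _ rfl).trans e1).add b3
    simpa using this
  have g6 : (q₁ : ℤ) ∣ t := by
    have := ((Dvd.intro_left _ rfl).trans e2).add b4
    simpa using this
  have hZc : D.c ∣ Z := Dvd.intro _ rfl
  have hZb : D.bad ∣ Z := (dvd_abs _ _).2 dvd_rfl |>.mul_left _
  refine ⟨⟨hq₀, by omega, hc _ (by omega), ?_, (Dvd.intro_left _ (by ring)).trans g3, ?_, hq₁, ?_,
    by omega, by omega, hc _ (by omega), hbad _ (by omega), g5, g6, hZc.trans g1, hZc.trans g2,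
    hZb.trans g1, hZb.trans g2, ?_⟩, ?_⟩
  · intro h
    have := Nat.le_of_dvd (by omega) h
    omega
  · have := g4.sub g3
    have h : t - s - q₀ = t - (1 + q₀) - (s - 1) := by ring
    rw [h]; exact this
  · have h1 : ((q₁ + 1 : ℕ) : ZMod (4 * m)) = 0 := by
      push_cast
      rw [hq₁m]
      ring
    exact (ZMod.natCast_eq_zero_iff _ _).1 h1
  · intro ℓ hℓ hℓm h hlt hex
    have hle : ℓ ≤ m := Nat.le_of_dvd (by omega) hℓm
    obtain ⟨q, hq, hqM, hP⟩ := hall (ℓ, h) ((hTm _).2 ⟨⟨Nat.mem_primeFactors.2 ⟨hℓ, hℓm,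
      by omega⟩, fun p => (hlt p).trans_le hle⟩, hex⟩)
    exact ⟨q, hq, hP.congr _ _ _ _ _ _ (hqM.trans hs') (hqM.trans ht')⟩
  · intro q hq
    obtain ⟨c1, c2, c3⟩ := hTT q hq
    have d1 : (q : ℤ) ^ 2 ∣ s - 1 := by
      have := (c1.trans g1').add c2
      simpa using this
    have d2 : (q : ℤ) ^ 2 ∣ t - (1 + q) := by
      have := (c1.trans g2').add c3
      simpa using this
    refine ⟨(Dvd.intro_left _ (by ring)).trans d1, ?_⟩
    have h : t - s - q = t - (1 + q) - (s - 1) := by ring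
    rw [h]
    exact d2.sub d1

end Pool.Agent.N53.CL
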