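import Pool.Agent.W289.CG.Core3
import Pool.Agent.W505.CG.Irr

/-!
# Totally split primes
-/

set_option autoImplicit false

namespace Pool.Agent.N53.CL

open Pool.Agent.W289.CG Polynomial NumberField

/-- the reduction of the algebraic integers at an embedding in `ℚ_p` -/
theorem exists_red {K : Type} [Field K] [NumberField K] {p : ℕ} [Fact p.Prime]
    (φ : K →+* ℚ_[p]) : ∃ ψ : 𝓞 K →+* ℤ_[p], ∀ x : 𝓞 K, ((ψ x : ℤ_[p]) : ℚ_[p]) = φ (x : K) := by
  have h : ∀ x : 𝓞 K, (φ.comp (algebraMap (𝓞 K) K)) x ∈ PadicInt.subring p := by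
    intro x
    have h1 : IsIntegral ℤ (φ (x : K)) := by
      have := x.isIntegral_coe
      exact this.map (φ.toIntAlgHom)
    have h2 : IsIntegral ℤ_[p] (φ (x : K)) := h1.tower_top
    obtain ⟨z, hz⟩ := IsIntegrallyClosed.isIntegral_iff.1 h2
    rw [PadicInt.mem_subring_iff]
    show ‖φ (x : K)‖ ≤ 1
    rw [← hz]
    exact z.2
  refine ⟨(φ.comp (algebraMap (𝓞 K) K)).codRestrict (PadicInt.subring p) h, fun x => rfl⟩

theorem split_of_emb {K : Type} [Field K] [NumberField K] (n p : ℕ) [Fact p.Prime]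
    (hfr : Module.finrank ℚ K = n) (φ : Fin n → (K →+* ℚ_[p])) (α : 𝓞 K)
    (c : Fin n → ZMod p) (hc : Function.Injective c) (z : Fin n → ℤ_[p])
    (hz : ∀ i, φ i (α : K) = (z i : ℚ_[p])) (hzc : ∀ i, PadicInt.toZMod (z i) = c i) :
    ∃ P : Fin n → Ideal (𝓞 K), Function.Injective P ∧ (∀ i, (P i).IsPrime) ∧
      ∏ i, P i = Ideal.span {(p : 𝓞 K)} := by
  have hp : p.Prime := Fact.out
  choose ψ hψ using fun i => exists_red (φ i)
  set χ : Fin n → (𝓞 K →+* ZMod p) := fun i => (PadicInt.toZMod (p := p)).comp (ψ i) with hχ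
  have hχα : ∀ i, χ i α = c i := by
    intro i
    have h1 : ψ i α = z i := by
      apply Subtype.coe_injective
      exact (hψ i α).trans (hz i)
    simp only [hχ, RingHom.comp_apply, h1, hzc]
  have hsurj : ∀ i, Function.Surjective (χ i) := fun i => ZMod.ringHom_surjective _
  set P : Fin n → Ideal (𝓞 K) := fun i => RingHom.ker (χ i) with hP
  have hmax : ∀ i, (P i).IsMaximal := fun i => RingHom.ker_isMaximal_of_surjective _ (hsurj i)
  have hnorm : ∀ i, Ideal.absNorm (P i) = p := by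
    intro i
    rw [Ideal.absNorm_apply, Submodule.cardQuot_apply]
    have e := RingHom.quotientKerEquivOfSurjective (hsurj i)
    rw [show (𝓞 K ⧸ P i) = (𝓞 K ⧸ RingHom.ker (χ i)) from rfl, Nat.card_congr e.toEquiv,
      Nat.card_zmod]
  have hinj : Function.Injective P := by
    intro i j hij
    apply hc
    obtain ⟨w, hw⟩ := ZMod.natCast_zmod_surjective (c i)
    have h1 : α - (w : 𝓞 K) ∈ P i := by
      rw [hP, RingHom.mem_ker, map_sub, hχα, map_natCast, hw, sub_self]
    rw [hij] at h1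
    rw [hP, RingHom.mem_ker, map_sub, hχα, map_natCast, hw] at h1
    exact (sub_eq_zero.1 h1).symm
  refine ⟨P, hinj, fun i => (hmax i).isPrime, ?_⟩
  have hdvd : ∏ i, P i ∣ Ideal.span {(p : 𝓞 K)} := by
    refine Finset.prod_dvd_of_coprime ?_ ?_
    · intro i _ j _ hij
      have := hmax i
      have := hmax j
      exact Ideal.isCoprime_of_isMaximal fun h => hij (hinj h)
    · intro i _
      rw [Ideal.dvd_span_singleton, hP, RingHom.mem_ker, map_natCast]
      exact ZMod.natCast_self p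
  obtain ⟨J, hJ⟩ := hdvd
  have hnq : Algebra.norm ℤ ((p : ℤ) : 𝓞 K) = (p : ℤ) ^ n := by
    have := Algebra.norm_algebraMap (S := 𝓞 K) (p : ℤ)
    rw [← hfr, ← RingOfIntegers.rank K]
    simpa using this
  have h8 : p ^ n * Ideal.absNorm J = p ^ n := by
    have h9 := congrArg Ideal.absNorm hJ
    rw [map_mul, map_prod, Ideal.absNorm_span_singleton] at h9
    simp only [hnorm, Finset.prod_const, Finset.card_univ, Fintype.card_fin] at h9
    rw [← h9]
    have h10 : ((p : ℕ) : 𝓞 K) = ((p : ℤ) : 𝓞 K) := by norm_cast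
    rw [h10, hnq, Int.natAbs_pow, Int.natAbs_natCast]
  have h11 : Ideal.absNorm J = 1 :=
    Nat.eq_of_mul_eq_mul_left (pow_pos hp.pos n) (by rw [h8, mul_one])
  have h12 : J = ⊤ := Ideal.absNorm_eq_one_iff.1 h11
  rw [h12, Ideal.mul_top] at hJ
  exact hJ.symm

/-- a prime number `p` which divides `s`, does not divide `t` and the data, splits completely -/
theorem spl (hEmb : TaskEmb) {n k : ℕ} (D : Dat n k) (m : ℕ) (s t L : ℤ) (K : Type) [Field K]
    [NumberField K] (θ : K) (p : ℕ) (hp : p.Prime) (hfr : Module.finrank ℚ K = n) (hn : 1 ≤ n)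
    (hm : m ≠ 0) (hL : L ≠ 0) (hF : Fld D m s t L K θ) (hpc : ¬ (p : ℤ) ∣ D.c)
    (hpb : ¬ (p : ℤ) ∣ D.bad) (hps : (p : ℤ) ∣ s) (hpt : ¬ (p : ℤ) ∣ t) :
    (∃ P : Fin n → Ideal (𝓞 K), Function.Injective P ∧ (∀ i, (P i).IsPrime) ∧
      ∏ i, P i = Ideal.span {(p : 𝓞 K)}) ∧ ∃ _ : Fact p.Prime, Nonempty (K →+* ℚ_[p]) := by
  have : Fact p.Prime := ⟨hp⟩
  have hpp : Prime (p : ℤ) := Nat.prime_iff_prime_int.1 hp
  have hpts : ¬ (p : ℤ) ∣ t ^ m - s ^ m := by
    intro h
    have h1 : (p : ℤ) ∣ t ^ m := by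
      have := h.add (dvd_pow hps hm)
      simpa using this
    exact hpt (hpp.dvd_of_dvd_pow h1)
  have hpL : ¬ (p : ℤ) ∣ L := fun h => hpts (by rw [← hF.hL]; exact h.mul_right _)
  have hA0 : ∀ i, (pA D.a).eval (D.a i) = 0 := by
    intro i
    rw [eval_pA]
    exact Finset.prod_eq_zero (Finset.mem_univ i) (sub_self _)
  have htst : ∀ i, Tst D m p s t (D.a i) := by
    intro i
    refine ⟨hp, hpc, ?_, hpts, fun h => hpb (h.trans (dvd_bad D (Sum.inl i)))⟩
    rw [hA0, mul_zero]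
    have := dvd_pow hps hm
    exact (dvd_zero _).sub (this.mul_right _)
  choose φ z hφ hz using fun i => hEmb n k D m s t L K θ p (D.a i) hfr hn hL hF (htst i)
  -- the integral element `L θ`
  have hint : IsIntegral ℤ ((L : K) * θ) := by
    have h1 : aeval θ (C L * pA D.a + C (s ^ m)) = 0 := by
      have h2 := hF.hθ
      rw [map_add, map_mul, aeval_C, aeval_C]
      have h3 : aeval θ (pA D.a) = ∏ i, (θ - (D.a i : K)) := by
        rw [pA, map_prod]
        refine Finset.prod_congr rfl fun i _ => ?_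
        simp
      rw [h3]
      simpa using h2
    have h4 := isIntegral_leadingCoeff_smul _ _ h1
    have h5 : (C L * pA D.a + C (s ^ m)).leadingCoeff = L := by
      have h6 : (C L * pA D.a).natDegree = n := by
        rw [natDegree_C_mul hL, W505.CG.pA_natDegree]
      rw [leadingCoeff, natDegree_add_C, h6, coeff_add, coeff_C_mul, coeff_C,
        if_neg (by omega : n ≠ 0), add_zero]
      have := (W505.CG.pA_monic D.a).coeff_natDegree
      rw [W505.CG.pA_natDegree] at this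
      rw [this, mul_one]
    rw [h5] at h4
    simpa using h4
  obtain ⟨α, hα⟩ : ∃ α : 𝓞 K, (α : K) = (L : K) * θ := ⟨⟨_, hint⟩, rfl⟩
  refine ⟨?_, this, ⟨φ ⟨0, hn⟩⟩⟩
  refine split_of_emb n p hfr φ α (fun i => (L : ZMod p) * (D.a i : ZMod p)) ?_
    (fun i => (L : ℤ_[p]) * z i) ?_ ?_
  · intro i j hij
    have hL0 : (L : ZMod p) ≠ 0 := fun h => hpL ((ZMod.intCast_zmod_eq_zero_iff_dvd _ _).1 h)
    have h1 : (D.a i : ZMod p) = (D.a j : ZMod p) := mul_left_cancel₀ hL0 hij
    by_contra hne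
    have h2 : (p : ℤ) ∣ D.a i - D.a j := by
      rw [← ZMod.intCast_zmod_eq_zero_iff_dvd]
      push_cast
      exact sub_eq_zero.2 h1
    apply hpb
    refine Dvd.dvd.trans ?_ (dvd_bad D (Sum.inl i))
    have h3 : (derivative (pA D.a)).eval (D.pt (Sum.inl i)) =
        ∏ j ∈ Finset.univ.erase i, (D.a i - D.a j) := by
      show (derivative (pA D.a)).eval (D.a i) = _
      rw [pA, ← Finset.mul_prod_erase _ _ (Finset.mem_univ i), derivative_mul, eval_add, eval_mul,
        eval_mul, eval_prod]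
      simp
    rw [h3]
    exact h2.trans (Finset.dvd_prod_of_mem _ (Finset.mem_erase.2 ⟨fun h => hne h.symm,
      Finset.mem_univ j⟩))
  · intro i
    rw [hα, map_mul, map_intCast, hφ]
    push_cast
    rfl
  · intro i
    rw [map_mul, map_intCast, hz]

end Pool.Agent.N53.CL
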