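import Pool.Agent.N53.CL.Ram
import Pool.Agent.N53.CL.Crt
import Pool.Agent.N53.CL.Spl

/-!
# The fields with prescribed splitting and ramification
-/

set_option autoImplicit false

namespace Pool.Agent.N53.CL

open Pool.Agent.W289.CG Polynomial NumberField nonZeroDivisors

/-- the choice of `s` and `t` -/
theorem exists_st (hSt : TaskSt) (M W s₀ t₀ : ℤ) (x y : ℝ) (hM : 0 < M) (hW : 0 < W)
    (hcop : IsCoprime s₀ M) (hMW : IsCoprime M W) (hx : 1 ≤ x) (hxy : x < y) :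
    ∃ s t : ℤ, M ∣ s - s₀ ∧ M ∣ t - t₀ ∧ 0 < s ∧ IsCoprime s t ∧ x * s < t ∧ (t : ℝ) < y * s ∧
      W ∣ s ∧ W ∣ t - 1 := by
  obtain ⟨u, v, huv⟩ := hMW
  have hvM : IsCoprime v M := ⟨W, u, by linear_combination huv⟩
  obtain ⟨s₁, t₁, h1, h2, h3, h4, h5⟩ := crt2 (M := M) (M' := W) (s := v * s₀) (t := t₀)
    (s' := 1) (t' := 1) ⟨u, v, huv⟩ (hvM.mul_left hcop) isCoprime_one_left
  have hWR : (0 : ℝ) < W := by exact_mod_cast hW
  have hW1 : (1 : ℝ) ≤ W := by exact_mod_cast hW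
  obtain ⟨s', t, e1, e2, e3, e4, e5, e6⟩ := hSt (M * W) s₁ t₁ (x * W) (y * W) (mul_pos hM hW) h5
    (by nlinarith) (by nlinarith) 0
  have hWt : W ∣ t - 1 := by
    have := ((Dvd.intro_left _ rfl).trans e2).add h4
    simpa using this
  have hWt' : IsCoprime W t := by
    obtain ⟨w, hw⟩ := hWt
    exact ⟨-w, 1, by linear_combination hw⟩
  refine ⟨W * s', t, ?_, ?_, mul_pos hW e3, hWt'.mul_left e4, ?_, ?_, Dvd.intro _ rfl, hWt⟩
  · have f1 : M ∣ W * (s' - s₁) := ((Dvd.intro _ rfl).trans e1).mul_left W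
    have f2 : M ∣ W * (s₁ - v * s₀) := h1.mul_left W
    have f3 : M ∣ (W * v - 1) * s₀ := ⟨-u * s₀, by linear_combination s₀ * huv⟩
    have := (f1.add f2).add f3
    have h : W * s' - s₀ = W * (s' - s₁) + W * (s₁ - v * s₀) + (W * v - 1) * s₀ := by ring
    rw [h]
    exact this
  · have := ((Dvd.intro _ rfl).trans e2).add h2
    simpa using this
  · push_cast
    linarith
  · push_cast
    linarith

theorem core' (hCls : TaskCls) (hVal : TaskVal) (hLoc : TaskLoc) (hEmb : TaskEmb) (hMu : TaskMu)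
    (hRed : TaskRed) (hWeil : TaskWeil) (hRoot : TaskRoot) (hSt : TaskSt) (hIrr : TaskIrr)
    (hDisc : TaskDisc) (hPl : TaskPl) {n k : ℕ} (hn : 2 ≤ n) (hk : 1 ≤ k) (D : Dat n k)
    (m N : ℕ) (hm : 2 ≤ m) (x y : ℝ) (hx : 1 ≤ x) (hxy : x < y) (S T : Finset ℕ)
    (hS : ∀ p ∈ S, p.Prime ∧ ¬ (p : ℤ) ∣ D.c * |D.bad|)
    (hT : ∀ q ∈ T, q.Prime ∧ ¬ (q : ℤ) ∣ D.c * |D.bad|) (hST : Disjoint S T)
    (hTm : ∀ q ∈ T, ¬ q ∣ m) :
    ∃ (s t : ℤ) (K : Type) (_ : Field K) (_ : NumberField K), 0 < s ∧ x * s < t ∧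
      (t : ℝ) < y * s ∧ Module.finrank ℚ K = n ∧ (N : ℤ) < |discr K| ∧
      InfinitePlace.nrRealPlaces K =
        {X : ℝ | ∏ i, (X - (D.a i : ℝ)) = - ((s : ℝ) ^ m * D.c / ((t : ℝ) ^ m - (s : ℝ) ^ m))}.ncard ∧
      (∀ p ∈ S, (∃ P : Fin n → Ideal (𝓞 K), Function.Injective P ∧ (∀ i, (P i).IsPrime) ∧
        ∏ i, P i = Ideal.span {(p : 𝓞 K)}) ∧ ∃ _ : Fact p.Prime, Nonempty (K →+* ℚ_[p])) ∧
      (∀ q ∈ T, ∃ P : Ideal (𝓞 K), P.IsPrime ∧ P ^ n = Ideal.span {(q : 𝓞 K)}) ∧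
      ∀ R, R + Units.rank K ≤ n + k - 1 →
        ∃ f : Multiplicative (Fin R → ZMod m) →* ClassGroup (𝓞 K), Function.Injective f := by
  obtain ⟨q₀, q₁, M, s₀, t₀, hM, hcop, hMW, hgood⟩ :=
    exists_good' hWeil hRoot D m N (by omega) hk hm S T hS hT hST
  have hWpos : (0 : ℤ) < ∏ p ∈ S, (p : ℤ) :=
    Finset.prod_pos fun p hp => by exact_mod_cast (hS p hp).1.pos
  obtain ⟨s, t, hs, ht, hs0, hst, hxs, hys, hWs, hWt⟩ :=
    exists_st hSt M _ s₀ t₀ x y hM hWpos hcop hMW hx hxy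
  obtain ⟨hG, hGT⟩ := hgood s t hs ht
  have hsR : (0 : ℝ) < s := by exact_mod_cast hs0
  have hslt : s < t := by
    have h1 : (s : ℝ) < t := by nlinarith
    exact_mod_cast h1
  obtain ⟨L, hL0, hLc, hcopL, hqL, hqL2, hqs, hsb, htb⟩ := good_arith hG hm hs0 hslt hst
  have hirr := hIrr n D.a L (s ^ m) q₀ (by omega) hG.hq₀ hqL hqL2 hqs hcopL
  obtain ⟨K, hK1, hK2, θ, hfr, hθ, hgen⟩ := exists_field _ hirr
  rw [natDegree_F (by omega) D.a L _ hL0.ne'] at hfr
  have hθ' := hθ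
  rw [eval_F] at hθ'
  have hF : Fld D m s t L K θ := ⟨hLc, by push_cast at hθ'; exact hθ', hgen⟩
  have htn : t ≠ 0 := (hs0.trans hslt).ne'
  have hpt := ne_pt hF hs0.ne' htn
  refine ⟨s, t, K, hK1, hK2, hs0, hxs, hys, hfr, ?_, ?_, ?_, ?_, ?_⟩
  · have h1 := hDisc K n D.a L (s ^ m) q₀ θ hn hfr hG.hq₀ hqL hqL2 hqs hθ' hgen
    have h2 : (q₀ : ℤ) ≤ |discr K| := Int.le_of_dvd (abs_pos.2 (discr_ne_zero K))
      ((dvd_abs _ _).2 h1)
    have h3 : (N : ℤ) < q₀ := by exact_mod_cast hG.hN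
    linarith
  · rw [hPl K _ θ hirr hθ hgen]
    congr 1
    ext X
    simp only [Set.mem_ofPred_eq]
    rw [eval_F]
    have hL0' : (L : ℝ) ≠ 0 := by exact_mod_cast hL0.ne'
    have hc0 : (D.c : ℝ) ≠ 0 := by exact_mod_cast D.hc.ne'
    have h1 : (t : ℝ) ^ m - (s : ℝ) ^ m = L * D.c := by
      have : ((L * D.c : ℤ) : ℝ) = ((t ^ m - s ^ m : ℤ) : ℝ) := by rw [hLc]
      push_cast at this
      exact this.symm
    rw [h1]
    push_cast
    constructor
    · intro h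
      field_simp
      linear_combination h
    · intro h
      rw [h]
      field_simp
      ring
  · intro p hp
    obtain ⟨hpr, hpZ⟩ := hS p hp
    have hpp : Prime (p : ℤ) := Nat.prime_iff_prime_int.1 hpr
    have hpW : (p : ℤ) ∣ ∏ p ∈ S, (p : ℤ) := Finset.dvd_prod_of_mem _ hp
    refine spl hEmb D m s t L K θ p hpr hfr (by omega) (by omega) hL0.ne' hF
      (fun h => hpZ (h.mul_right _)) (fun h => hpZ (Dvd.dvd.mul_left ((dvd_abs _ _).2 h) _))
      (hpW.trans hWs) ?_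
    intro h
    have h1 : (p : ℤ) ∣ 1 := by
      have := h.sub (hpW.trans hWt)
      simpa using this
    exact hpp.not_isUnit (isUnit_of_dvd_one h1)
  · intro q hq
    obtain ⟨hqr, hqZ⟩ := hT q hq
    obtain ⟨g1, g2⟩ := hGT q hq
    have hqp : Prime (q : ℤ) := Nat.prime_iff_prime_int.1 hqr
    obtain ⟨h1, h2⟩ := exact_power hqr (hTm q hq) g1 g2
    refine ram K n D.a L (s ^ m) q θ (by omega) hfr hqr ?_ ?_ ?_ hθ'
    · rw [← hLc] at h1
      exact (hqp.dvd_or_dvd h1).resolve_right (fun h => hqZ (h.mul_right _))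
    · intro h
      exact h2 (by rw [← hLc]; exact h.mul_right _)
    · intro h
      have h3 := hqp.dvd_of_dvd_pow h
      have h4 : (q : ℤ) ∣ 1 := by
        have := h3.sub g1
        simpa using this
      exact hqp.not_isUnit (isUnit_of_dvd_one h4)
  · intro R hR
    obtain ⟨N', hN'⟩ : ∃ N', n + k = N' + 1 := ⟨n + k - 1, by omega⟩
    let σ : Fin (N' + 1) ≃ Fin n ⊕ Fin k := (finCongr hN'.symm).trans finSumFinEquiv.symm
    refine hCls K N' m R hm (by omega) (elt D σ θ hpt) ?_ ?_ ?_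
    · intro i
      refine hVal K m _ (by omega) fun v => ?_
      exact hLoc n k D m s t L K θ (by omega) (by omega) hL0.ne' hs0.ne' htn hF hst hsb htb _ _ v
    · intro ℓ hℓ hℓm
      exact indep_of_tests hEmb hRed hfr (by omega) hL0.ne' hF hpt σ ℓ hℓ (hG.tests ℓ hℓ hℓm)
    · intro ℓ hℓ hℓm
      have hx1 : Tst D m q₁ s t (D.b ⟨0, hk⟩) := by
        have hp : Prime (q₁ : ℤ) := Nat.prime_iff_prime_int.1 hG.hq₁
        refine ⟨hG.hq₁, hG.hc₁, ?_, ?_, ?_⟩
        · rw [D.hab, sub_self, mul_zero, sub_zero]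
          exact Dvd.dvd.mul_right (dvd_pow hG.ht₁ (by omega)) _
        · intro h
          have h1 : (q₁ : ℤ) ∣ s ^ m := by
            have := (dvd_pow hG.ht₁ (show m ≠ 0 by omega)).sub h
            simpa using this
          have h2 := hp.dvd_of_dvd_pow h1
          have h3 : (q₁ : ℤ) ∣ 1 := by
            have := h2.sub hG.hs₁
            simpa using this
          exact hp.not_isUnit (isUnit_of_dvd_one h3)
        · intro h
          exact hG.hbad (h.trans (dvd_bad D (Sum.inr ⟨0, hk⟩)))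
      have hle : ℓ ≤ m := Nat.le_of_dvd (by omega) hℓm
      have hq1 : q₁ - 1 + 2 = q₁ + 1 := by have := hG.hq4; omega
      refine ⟨fun hℓ2 => ?_, fun hℓ2 => ?_⟩
      · refine no_zeta hEmb hMu hfr (by omega) hL0.ne' hF hG.hq₁ hx1 ?_ ?_
        · intro h
          have := Nat.le_of_dvd hℓ.pos h
          have := hG.hqm'
          omega
        · intro h
          have h1 : ℓ ∣ q₁ + 1 := (hℓm.trans (Dvd.intro_left _ rfl)).trans hG.hqm
          rw [← hq1] at h1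
          have h2 : ℓ ∣ 2 := (Nat.dvd_add_right h).1 h1
          exact hℓ2 ((Nat.prime_dvd_prime_iff_eq hℓ Nat.prime_two).1 h2)
      · refine no_zeta hEmb hMu hfr (by omega) hL0.ne' hF hG.hq₁ hx1 ?_ ?_
        · intro h
          have := Nat.le_of_dvd (by norm_num) h
          have := hG.hq4
          omega
        · intro h
          have h1 : 4 ∣ q₁ + 1 := (Dvd.intro _ rfl).trans hG.hqm
          rw [← hq1] at h1
          have h2 : 4 ∣ 2 := (Nat.dvd_add_right h).1 h1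
          norm_num at h2

end Pool.Agent.N53.CL
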