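import Pool.Agent.N53.CL.Core
import Pool.Agent.R713.AS.Data
import Pool.Agent.W289.CG.Fin
import Pool.Agent.TH805.CG.Base7

/-!
# The fields for given data
-/

set_option autoImplicit false

namespace Pool.Agent.N53.CL

open NumberField Pool.Agent.W289.CG

/-- the fields for given data, when the number of real solutions is known in an interval -/
theorem of_data' {n k : ℕ} (hn : 2 ≤ n) (hk : 1 ≤ k) (D : Dat n k) (r₁ : ℕ) (v₁ v₂ : ℝ)
    (h₁ : 0 < v₁) (h₁₂ : v₁ < v₂) (hcount : ∀ v, v₁ < v → v < v₂ →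
      {X : ℝ | ∏ i, (X - (D.a i : ℝ)) = - v}.ncard = r₁) (m N : ℕ) (hm : 2 ≤ m) (S T : Finset ℕ)
    (hS : ∀ p ∈ S, p.Prime ∧ ¬ (p : ℤ) ∣ D.c * |D.bad|)
    (hT : ∀ q ∈ T, q.Prime ∧ ¬ (q : ℤ) ∣ D.c * |D.bad|) (hST : Disjoint S T)
    (hTm : ∀ q ∈ T, ¬ q ∣ m) :
    ∃ (K : Type) (_ : Field K) (_ : NumberField K), Module.finrank ℚ K = n ∧
      InfinitePlace.nrRealPlaces K = r₁ ∧ (N : ℤ) < |discr K| ∧
      (∀ p ∈ S, (∃ P : Fin n → Ideal (𝓞 K), Function.Injective P ∧ (∀ i, (P i).IsPrime) ∧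
        ∏ i, P i = Ideal.span {(p : 𝓞 K)}) ∧ ∃ _ : Fact p.Prime, Nonempty (K →+* ℚ_[p])) ∧
      (∀ q ∈ T, ∃ P : Ideal (𝓞 K), P.IsPrime ∧ P ^ n = Ideal.span {(q : 𝓞 K)}) ∧
      ∀ R, R + Units.rank K ≤ n + k - 1 →
        ∃ f : Multiplicative (Fin R → ZMod m) →* ClassGroup (𝓞 K), Function.Injective f := by
  have hcR : (0 : ℝ) < D.c := by exact_mod_cast D.hc
  have h₂ : 0 < v₂ := h₁.trans h₁₂
  have hm0 : m ≠ 0 := by omega
  have hmR : (0 : ℝ) < (m : ℝ)⁻¹ := by positivity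
  set x : ℝ := (1 + D.c / v₂) ^ ((m : ℝ)⁻¹) with hx
  set y : ℝ := (1 + D.c / v₁) ^ ((m : ℝ)⁻¹) with hy
  have hx0 : 0 ≤ 1 + D.c / v₂ := by positivity
  have hy0 : 0 ≤ 1 + D.c / v₁ := by positivity
  have hxm : x ^ m = 1 + D.c / v₂ := Real.rpow_inv_natCast_pow hx0 hm0
  have hym : y ^ m = 1 + D.c / v₁ := Real.rpow_inv_natCast_pow hy0 hm0
  have hx1 : 1 ≤ x := Real.one_le_rpow (by
    have : 0 < D.c / v₂ := div_pos hcR h₂
    linarith) hmR.le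
  have hxy : x < y := Real.rpow_lt_rpow hx0 (by
    have : D.c / v₂ < D.c / v₁ := div_lt_div_of_pos_left hcR h₁ h₁₂
    linarith) hmR
  obtain ⟨s, t, K, hK1, hK2, hs, hxs, hys, hfr, hdisc, hreal, hspl, hram, hcl⟩ :=
    core' (Pool.Agent.W930.CG.cls Pool.Agent.W240.CG.grp Pool.Agent.W125.CG.uni)
      Pool.Agent.W64.CG.val Pool.Agent.W405.CG.loc Pool.Agent.W290.CG.emb
      Pool.Agent.W349.CG.mu Pool.Agent.W349.CG.red Pool.Agent.W349.CG.WeilT.main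
      Pool.Agent.W505.CG.root Pool.Agent.W505.CG.st Pool.Agent.W505.CG.irr
      Pool.Agent.W505.CG.disc Pool.Agent.W240.CG.pl hn hk D m N hm x y hx1 hxy S T hS hT hST hTm
  refine ⟨K, hK1, hK2, hfr, ?_, hdisc, hspl, hram, hcl⟩
  have hsR : (0 : ℝ) < s := by exact_mod_cast hs
  have htR : (s : ℝ) < t := by nlinarith
  have hsm : (0 : ℝ) < (s : ℝ) ^ m := by positivity
  have h3 : (1 + D.c / v₂) * (s : ℝ) ^ m < (t : ℝ) ^ m := by
    rw [← hxm, ← mul_pow]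
    exact pow_lt_pow_left₀ hxs (by positivity) hm0
  have h4 : (t : ℝ) ^ m < (1 + D.c / v₁) * (s : ℝ) ^ m := by
    rw [← hym, ← mul_pow]
    exact pow_lt_pow_left₀ hys (by linarith) hm0
  have h5 : 0 < (t : ℝ) ^ m - (s : ℝ) ^ m := by
    have h6 : 0 < D.c / v₂ * (s : ℝ) ^ m := by positivity
    nlinarith
  rw [hreal]
  apply hcount
  · rw [lt_div_iff₀ h5]
    have h6 : (t : ℝ) ^ m - (s : ℝ) ^ m < D.c / v₁ * (s : ℝ) ^ m := by nlinarith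
    have h7 : v₁ * ((t : ℝ) ^ m - (s : ℝ) ^ m) < v₁ * (D.c / v₁ * (s : ℝ) ^ m) :=
      mul_lt_mul_of_pos_left h6 h₁
    have h8 : v₁ * (D.c / v₁ * (s : ℝ) ^ m) = (s : ℝ) ^ m * D.c := by
      field_simp
    linarith
  · rw [div_lt_iff₀ h5]
    have h6 : D.c / v₂ * (s : ℝ) ^ m < (t : ℝ) ^ m - (s : ℝ) ^ m := by nlinarith
    have h7 : v₂ * (D.c / v₂ * (s : ℝ) ^ m) < v₂ * ((t : ℝ) ^ m - (s : ℝ) ^ m) :=
      mul_lt_mul_of_pos_left h6 h₂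
    have h8 : v₂ * (D.c / v₂ * (s : ℝ) ^ m) = (s : ℝ) ^ m * D.c := by
      field_simp
    linarith

/-- the data for all signatures -/
theorem data_all (n r₁ r₂ : ℕ) (hn : 3 ≤ n) (hr : r₁ + 2 * r₂ = n) :
    ∃ (D : Dat n 2) (v₁ v₂ : ℝ), 0 < v₁ ∧ v₁ < v₂ ∧ ∀ v, v₁ < v → v < v₂ →
      {X : ℝ | ∏ i, (X - (D.a i : ℝ)) = - v}.ncard = r₁ := by
  obtain ⟨e, p, he, hnp⟩ : ∃ e p : ℕ, e ≤ 1 ∧ n = 1 + e + 2 * (p + 1) := by
    rcases Nat.even_or_odd n with ⟨k, hk⟩ | ⟨k, hk⟩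
    · exact ⟨1, k - 2, le_rfl, by omega⟩
    · exact ⟨0, k - 1, by omega, by omega⟩
  rcases Nat.lt_or_ge (p + 1) r₂ with h | h
  · -- all roots are complex
    subst hnp
    obtain ⟨D, -⟩ := Pool.Agent.R713.AS.ex_data e p 0 he (by omega)
    obtain ⟨B, hB⟩ := Pool.Agent.W240.CG.real1 _ D.a (by omega) D.ha
    refine ⟨D, |B| + 1, |B| + 2, by positivity, by linarith, fun v hv _ => ?_⟩
    rw [hB v (by linarith [le_abs_self B])]
    omega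
  · subst hnp
    obtain ⟨D, v₁, v₂, h1, h2, h3⟩ := Pool.Agent.R713.AS.ex_data e p r₂ he h
    refine ⟨D, v₁, v₂, h1, h2, fun v hv hv' => ?_⟩
    rw [h3 v hv hv']
    omega

/-- the data for the two extreme signatures -/
theorem data_ext {n k : ℕ} (hn : 1 ≤ n) (D : Dat n k) (r₁ r₂ : ℕ) (hr : r₁ + 2 * r₂ = n)
    (h : r₂ = n / 2 ∨ r₂ = 0) :
    ∃ v₁ v₂ : ℝ, 0 < v₁ ∧ v₁ < v₂ ∧ ∀ v, v₁ < v → v < v₂ →
      {X : ℝ | ∏ i, (X - (D.a i : ℝ)) = - v}.ncard = r₁ := by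
  rcases h with h | h
  · obtain ⟨B, hB⟩ := Pool.Agent.W240.CG.real1 n D.a hn D.ha
    refine ⟨|B| + 1, |B| + 2, by positivity, by linarith, fun v hv _ => ?_⟩
    rw [hB v (by linarith [le_abs_self B])]
    omega
  · have h3 : (0 : ℝ) < 3 ^ n := by positivity
    refine ⟨1 / 3 ^ n / 2, 1 / 3 ^ n, by positivity, half_lt_self (by positivity),
      fun v hv hv' => ?_⟩
    rw [Pool.Agent.W240.CG.real2 n D.a hn D.ha v (lt_trans (by positivity) hv)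
      ((lt_div_iff₀ h3).1 hv')]
    omega

/-- the number of additional values -/
def kap (n : ℕ) : ℕ := if n ≤ 10 ∨ n = 12 then n - 1 else if n % 2 = 0 ∨ 29 ≤ n then 6 else 4

theorem dat_kap (n : ℕ) (hn : 3 ≤ n) : Nonempty (Dat n (kap n)) := by
  rw [kap]
  split_ifs with h1 h2
  · exact W21.CG.small n (by omega)
  · by_cases h : n % 2 = 0
    · exact TH805.CG6.even6 n (by omega) h
    · have h6 : n % 6 = 1 ∨ n % 6 = 3 ∨ n % 6 = 5 := by omega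
      rcases h6 with h | h | h
      · exact TH805.CG6.odd1 n (by omega) h
      · exact TH805.CG6.odd3 n (by omega) h
      · exact TH805.CG6.odd5 n (by omega) h
  · exact TH805.CG4.all4 n (by omega) (by omega)

end Pool.Agent.N53.CL
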