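import Pool.Agent.W289.CG.Stm

/-!
# Statements: totally ramified and completely split primes
-/

set_option autoImplicit false

namespace Pool.Agent.N53.CL

open NumberField

/-- RAM: a prime number `q` which divides the leading coefficient `L` exactly once and not the constant
term `S` is totally ramified -/
def S_RAM : Prop :=
  ∀ (K : Type) [Field K] [NumberField K] (n : ℕ) (a : Fin n → ℤ) (L S : ℤ) (q : ℕ) (θ : K),
    1 ≤ n → Module.finrank ℚ K = n → q.Prime → (q : ℤ) ∣ L → ¬ (q : ℤ) ^ 2 ∣ L →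
    ¬ (q : ℤ) ∣ S → (L : K) * ∏ i, (θ - (a i : K)) + (S : K) = 0 →
    ∃ P : Ideal (𝓞 K), P.IsPrime ∧ P ^ n = Ideal.span {(q : 𝓞 K)}

end Pool.Agent.N53.CL
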